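import Pool.Agent.MP_f60a12_co.Mg.Final

open Pool.Agent.MP_f60a12_co

/-- A product-free subset of a finitely generated free group with upper Banach density `1 / 2`
lies in `T_λ` for some labelling `λ`. -/
theorem Pool.Agent.Results.MP_f60a12_co.Structure.result :
    ∀ (A : Type) [DecidableEq A] [Fintype A] [Nonempty A] (S : Set (FreeGroup A)),
      ProductFree S → upperBanachDensity S = 1 / 2 →
      ∃ lab : A × Bool → ZMod 2, (∀ α : A, lab (α, false) = -lab (α, true)) ∧
        S ⊆ {w | labelSum lab w = 1} :=
  fun _ _ _ _ _ hS hd => structure_thm hS hd
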